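import Pool.Agent.N303.LS.Stm2
import Pool.Agent.N303.LS.Stm6

/-!
# Project LG (MP_ee74d2_an), leaf LPA
-/

set_option autoImplicit false

namespace Pool.Agent.N441.LS

open MeasureTheory Pool.Agent.N303.LS
open scoped ENNReal FourierTransform RealInnerProductSpace SchwartzMap

theorem t_lpa (h : Pool.Agent.N303.LS.S_MUL) : Pool.Agent.N303.LS.S_LPA := by
  intro d K G w l hw p hp g
  have hKi : Integrable (K : E d → ℂ) := K.integrable
  have hGi : Integrable (G : E d → ℂ) := G.integrable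
  have hwi : Integrable (fun v : ℝ => ((w v : ℝ) : ℂ)) := hw.ofReal
  have hκ : Integrable (fun q : ℝ × (E d × E d) =>
      ((w q.1 : ℝ) : ℂ) * (K q.2.1 * G q.2.2)) := hwi.mul_prod (hKi.mul_prod hGi)
  have hy : Measurable (fun q : ℝ × (E d × E d) => l • q.2.1 + Real.sqrt q.1 • q.2.2) := by
    apply Measurable.add
    · exact (measurable_snd.fst).const_smul l
    · exact (Real.continuous_sqrt.measurable.comp measurable_fst).smul measurable_snd.snd
  have key : ∀ ξ : E d, (∫ q : ℝ × (E d × E d), Complex.exp (((-(2 * Real.pi *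
      ⟪l • q.2.1 + Real.sqrt q.1 • q.2.2, ξ⟫) : ℝ) : ℂ) * Complex.I) *
        (((w q.1 : ℝ) : ℂ) * (K q.2.1 * G q.2.2))) =
      𝓕 (K : E d → ℂ) (l • ξ) *
        ∫ v : ℝ, ((w v : ℝ) : ℂ) * 𝓕 (G : E d → ℂ) (Real.sqrt v • ξ) := by
    intro ξ
    have hF : Integrable (fun q : ℝ × (E d × E d) => Complex.exp (((-(2 * Real.pi *
      ⟪l • q.2.1 + Real.sqrt q.1 • q.2.2, ξ⟫) : ℝ) : ℂ) * Complex.I) *
        (((w q.1 : ℝ) : ℂ) * (K q.2.1 * G q.2.2))) := by
      refine hκ.bdd_mul (c := 1) ?_ ?_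
      · apply Measurable.aestronglyMeasurable
        have h1 : Measurable (fun q : ℝ × (E d × E d) =>
            ⟪l • q.2.1 + Real.sqrt q.1 • q.2.2, ξ⟫) := hy.inner measurable_const
        exact Complex.measurable_exp.comp
          ((Complex.measurable_ofReal.comp ((h1.const_mul (2 * Real.pi)).neg)).mul_const Complex.I)
      · refine Filter.Eventually.of_forall fun q => ?_
        rw [Complex.norm_exp_ofReal_mul_I]
    rw [Measure.volume_eq_prod, integral_prod _ (by rw [← Measure.volume_eq_prod]; exact hF),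
      ← integral_const_mul]
    refine integral_congr_ae (Filter.Eventually.of_forall fun v => ?_)
    have e1 : ∀ r : E d × E d, Complex.exp (((-(2 * Real.pi *
      ⟪l • r.1 + Real.sqrt v • r.2, ξ⟫) : ℝ) : ℂ) * Complex.I) *
        (((w v : ℝ) : ℂ) * (K r.1 * G r.2)) = ((w v : ℝ) : ℂ) *
        ((Complex.exp (((-2 * Real.pi * ⟪r.1, l • ξ⟫ : ℝ) : ℂ) * Complex.I) • K r.1) *
        (Complex.exp (((-2 * Real.pi * ⟪r.2, Real.sqrt v • ξ⟫ : ℝ) : ℂ) * Complex.I) • G r.2)) := by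
      intro r
      have e2 : (((-(2 * Real.pi *
        ⟪l • r.1 + Real.sqrt v • r.2, ξ⟫) : ℝ) : ℂ) * Complex.I) =
          (((-2 * Real.pi * ⟪r.1, l • ξ⟫ : ℝ) : ℂ) * Complex.I) +
          (((-2 * Real.pi * ⟪r.2, Real.sqrt v • ξ⟫ : ℝ) : ℂ) * Complex.I) := by
        rw [← add_mul, ← Complex.ofReal_add]
        congr 2
        rw [inner_add_left, inner_smul_left, inner_smul_left, inner_smul_right, inner_smul_right]
        simp
        ring
      rw [e2, Complex.exp_add, smul_eq_mul, smul_eq_mul]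
      ring
    show (∫ r : E d × E d, Complex.exp (((-(2 * Real.pi *
      ⟪l • r.1 + Real.sqrt v • r.2, ξ⟫) : ℝ) : ℂ) * Complex.I) *
        (((w v : ℝ) : ℂ) * (K r.1 * G r.2))) = _
    rw [integral_congr_ae (Filter.Eventually.of_forall e1), integral_const_mul,
      Measure.volume_eq_prod,
      integral_prod_mul (fun a : E d => Complex.exp (((-2 * Real.pi * ⟪a, l • ξ⟫ : ℝ) : ℂ) *
        Complex.I) • K a) (fun z : E d => Complex.exp (((-2 * Real.pi *
        ⟪z, Real.sqrt v • ξ⟫ : ℝ) : ℂ) * Complex.I) • G z)]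
    rw [← Real.fourier_eq' (K : E d → ℂ) (l • ξ), ← Real.fourier_eq' (G : E d → ℂ)]
    ring
  have hn : (∫⁻ q : ℝ × (E d × E d), ‖((w q.1 : ℝ) : ℂ) * (K q.2.1 * G q.2.2)‖ₑ) =
      (∫⁻ v : ℝ, ‖w v‖ₑ) * (∫⁻ x : E d, ‖K x‖ₑ) * ∫⁻ x : E d, ‖G x‖ₑ := by
    have e : ∀ q : ℝ × (E d × E d), ‖((w q.1 : ℝ) : ℂ) * (K q.2.1 * G q.2.2)‖ₑ =
        ‖w q.1‖ₑ * (‖K q.2.1‖ₑ * ‖G q.2.2‖ₑ) := by
      intro q
      rw [enorm_mul, enorm_mul, ← ofReal_norm (((w q.1 : ℝ) : ℂ)), Complex.norm_real, ofReal_norm]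
    rw [lintegral_congr e, Measure.volume_eq_prod,
      lintegral_prod_mul (f := fun v : ℝ => ‖w v‖ₑ) (g := fun r : E d × E d => ‖K r.1‖ₑ * ‖G r.2‖ₑ)
        hw.1.enorm (by
          exact (K.continuous.enorm.measurable.comp measurable_fst |>.mul
            (G.continuous.enorm.measurable.comp measurable_snd)).aemeasurable),
      Measure.volume_eq_prod,
      lintegral_prod_mul (f := fun v : E d => ‖K v‖ₑ) (g := fun r : E d => ‖G r‖ₑ)
        K.continuous.enorm.measurable.aemeasurable G.continuous.enorm.measurable.aemeasurable,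
      mul_assoc]
  have H := h d (ℝ × (E d × E d)) inferInstance volume inferInstance _ _ hy hκ g p hp
  rw [hn] at H
  have e3 : (fun ξ : E d => (∫ q : ℝ × (E d × E d), Complex.exp (((-(2 * Real.pi *
      ⟪l • q.2.1 + Real.sqrt q.1 • q.2.2, ξ⟫) : ℝ) : ℂ) * Complex.I) *
        (((w q.1 : ℝ) : ℂ) * (K q.2.1 * G q.2.2))) * 𝓕 (g : E d → ℂ) ξ) =
      fun ξ => (𝓕 (K : E d → ℂ) (l • ξ) *
        ∫ v : ℝ, ((w v : ℝ) : ℂ) * 𝓕 (G : E d → ℂ) (Real.sqrt v • ξ)) * 𝓕 (g : E d → ℂ) ξ := by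
    funext ξ
    rw [key ξ]
  rw [e3] at H
  exact H

end Pool.Agent.N441.LS
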